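import Pool.Agent.SFL.Fin

/-!
# A lower bound for the largest sum-free subset

`SFree.f n` is the largest number such that every set of `n` integers contains a sum-free subset of
that size. Known: `f n ≥ n / 3 + c log log n` (Bedert).
-/

namespace Pool.Agent.Results.MP_c10a6c_co.PolylogLowerBound

/-- `f n ≥ n / 3 + (log n) ^ (1 / 2000)` for all large `n`. -/
theorem result : ∃ n₀ : ℕ, ∀ n : ℕ, n₀ ≤ n →
    (n : ℝ) / 3 + (Real.log n) ^ (1 / 2000 : ℝ) ≤ (SFree.f n : ℝ) :=
  SFL.main_bound

end Pool.Agent.Results.MP_c10a6c_co.PolylogLowerBound
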