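import Pool.Agent.SFP.Final

/-!
# A power saving upper bound for the largest sum-free subset

`SFree.f n` is the largest number such that every set of `n` integers contains a sum-free subset of
that size. Known: `f n ≤ n / 3 + o(n)` (Eberhard, Green, Manners), without a rate.
-/

namespace Pool.Agent.Results.MP_c10a6c_co.PowerSavingUpperBound

/-- `f n ≤ n / 3 + n ^ (1 - c)` for a constant `c > 0` and all large `n`. -/
theorem result : ∃ c : ℝ, 0 < c ∧ ∃ n₀ : ℕ, ∀ n : ℕ, n₀ ≤ n →
    (SFree.f n : ℝ) ≤ n / 3 + (n : ℝ) ^ (1 - c) :=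
  SFP.power_saving

end Pool.Agent.Results.MP_c10a6c_co.PowerSavingUpperBound
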